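import Pool.Agent.H.MP_5de19d_an.A

set_option autoImplicit false

namespace Pool.Agent.H.MP_4d6ef8_an

open scoped InnerProductSpace BoundedContinuousFunction
open Finset InnerProductSpace Filter

variable {H : Type} [NormedAddCommGroup H] [InnerProductSpace ℂ H]

/-- soft projection away from `z` -/
noncomputable def qq (z : H) : H →L[ℂ] H := 1 - (((1 + ‖z‖ ^ 2)⁻¹ : ℝ) : ℂ) • rankOne ℂ z z

theorem qq_apply (z w : H) : qq z w = w - ((((1 + ‖z‖ ^ 2)⁻¹ : ℝ) : ℂ) * ⟪z, w⟫_ℂ) • z := by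
  simp only [qq, sub_apply, smul_apply, rankOne_apply, smul_smul]
  rfl

theorem qq_cont : Continuous fun p : H × H => qq p.1 p.2 := by
  simp only [qq_apply]
  have : Continuous fun p : H × H => (1 + ‖p.1‖ ^ 2)⁻¹ :=
    Continuous.inv₀ (by fun_prop) fun p => by positivity
  fun_prop

theorem qq_le (z w : H) : ‖qq z w‖ ≤ ‖w‖ := by
  have hp : 0 < 1 + ‖z‖ ^ 2 := by positivity
  set c : ℝ := (1 + ‖z‖ ^ 2)⁻¹ with hc
  have hc0 : 0 < c := by positivity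
  have hc1 : c * ‖z‖ ^ 2 ≤ 1 := by
    rw [hc, inv_mul_le_iff₀ hp]
    linarith
  rw [← sq_le_sq₀ (norm_nonneg _) (norm_nonneg _), qq_apply, ← hc, @norm_sub_sq ℂ,
    inner_smul_right, norm_smul, norm_mul, mul_assoc, ← inner_conj_symm w z, Complex.mul_conj,
    Complex.normSq_eq_norm_sq, ← Complex.ofReal_mul, Complex.norm_real, Real.norm_of_nonneg hc0.le]
  simp only [RCLike.re_to_complex, Complex.ofReal_re]
  have : 0 ≤ c * ‖⟪z, w⟫_ℂ‖ ^ 2 := by positivity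
  nlinarith

theorem qq_self (z : H) : ‖qq z z‖ ≤ 1 := by
  have hp : 0 < 1 + ‖z‖ ^ 2 := by positivity
  have : qq z z = (((1 + ‖z‖ ^ 2)⁻¹ : ℝ) : ℂ) • z := by
    rw [qq_apply, inner_self_eq_norm_sq_to_K]
    nth_rewrite 1 [← one_smul ℂ z]
    rw [← sub_smul]
    congr 1
    have : ((1 + ‖z‖ ^ 2 : ℝ) : ℂ) ≠ 0 := by exact_mod_cast hp.ne'
    push_cast at this ⊢
    field_simp
    simp
  rw [this, norm_smul, Complex.norm_real, Real.norm_of_nonneg (by positivity),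
    inv_mul_le_iff₀ hp]
  nlinarith [sq_nonneg (‖z‖ - 1)]

theorem qq_scale (t : ℝ) (ht : 0 < t) (y : H) : ‖qq ((t : ℂ) • y) y‖ ≤ t⁻¹ := by
  have := qq_self ((t : ℂ) • y)
  rw [map_smul, norm_smul, Complex.norm_real, Real.norm_of_nonneg ht.le] at this
  rw [← mul_one t⁻¹, le_inv_mul_iff₀ ht]
  exact this

theorem qq_symm (z a b : H) : ⟪qq z a, b⟫_ℂ = ⟪a, qq z b⟫_ℂ := by
  simp only [qq_apply, inner_sub_left, inner_sub_right, inner_smul_left, inner_smul_right,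
    map_mul, Complex.conj_ofReal, inner_conj_symm]
  ring

theorem qq_sub (z : H) : ∃ y : H, ‖y‖ ≤ 1 ∧ ∀ w, ‖w - qq z w‖ = ‖⟪y, w⟫_ℂ‖ := by
  have hp : 0 < 1 + ‖z‖ ^ 2 := by positivity
  refine ⟨(((1 + ‖z‖ ^ 2)⁻¹ * ‖z‖ : ℝ) : ℂ) • z, ?_, fun w => ?_⟩
  · rw [norm_smul, Complex.norm_real, Real.norm_of_nonneg (by positivity), mul_assoc,
      inv_mul_le_iff₀ hp]
    nlinarith
  · rw [qq_apply, sub_sub_cancel, inner_smul_left, Complex.conj_ofReal, norm_smul, norm_mul,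
      norm_mul, Complex.norm_real, Complex.norm_real, Real.norm_of_nonneg (by positivity),
      Real.norm_of_nonneg (by positivity)]
    ring

theorem bessel {e : ℕ → H} (he : Orthonormal ℂ e) (w : H) (N : ℕ) :
    ∑ m ∈ range N, ‖⟪w, e (m + 1)⟫_ℂ‖ ≤ √N * ‖w‖ := by
  have h1 := (he.comp _ Nat.succ_injective).sum_inner_products_le w (s := range N)
  have h2 := sq_sum_le_card_mul_sum_sq (s := range N) (f := fun m => ‖⟪w, e (m + 1)⟫_ℂ‖)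
  rw [card_range] at h2
  have h3 : ∑ m ∈ range N, ‖⟪w, e (m + 1)⟫_ℂ‖ ^ 2 ≤ ‖w‖ ^ 2 := by
    refine le_trans (le_of_eq (sum_congr rfl fun m _ => ?_)) h1
    rw [norm_inner_symm]
    rfl
  rw [← sq_le_sq₀ (sum_nonneg fun _ _ => norm_nonneg _) (by positivity), mul_pow,
    Real.sq_sqrt (by positivity)]
  exact h2.trans (by gcongr)

/-- the two-step soft projection -/
noncomputable def SS (z : H × H) : H →L[ℂ] H := qq z.2 ∘L qq z.1

theorem SS_apply (z : H × H) (w : H) : SS z w = qq z.2 (qq z.1 w) := rfl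

theorem SS_le (z : H × H) (w : H) : ‖SS z w‖ ≤ ‖w‖ := (qq_le _ _).trans (qq_le _ _)

theorem SS_cont (w : H) : Continuous fun z : H × H => SS z w :=
  qq_cont.comp (continuous_snd.prodMk (qq_cont.comp (continuous_fst.prodMk continuous_const)))

theorem SS_bessel {e : ℕ → H} (he : Orthonormal ℂ e) (z : H × H) (w : H) (N : ℕ) :
    ∑ m ∈ range N, ‖⟪w, SS z (e (m + 1))⟫_ℂ‖ ≤ √N * ‖w‖ := by
  simp only [SS_apply, ← qq_symm]
  refine (bessel he _ N).trans ?_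
  gcongr
  exact (qq_le _ _).trans (qq_le _ _)

theorem SS_near {e : ℕ → H} (he : Orthonormal ℂ e) (z : H × H) (N : ℕ) :
    ∑ m ∈ range N, ‖⟪SS z (e (m + 1)), SS z (e (m + 1))⟫_ℂ - 1‖ ≤ 4 * √N := by
  obtain ⟨y1, h1, e1⟩ := qq_sub z.1
  obtain ⟨y2, h2, e2⟩ := qq_sub z.2
  have key : ∀ w : H, ‖w‖ = 1 → ‖⟪SS z w, SS z w⟫_ℂ - 1‖ ≤
      2 * ‖⟪y1, w⟫_ℂ‖ + 2 * ‖⟪qq z.1 y2, w⟫_ℂ‖ := by
    intro w hw
    have a1 : ‖w - SS z w‖ ≤ ‖⟪y1, w⟫_ℂ‖ + ‖⟪qq z.1 y2, w⟫_ℂ‖ := by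
      rw [qq_symm, ← e1, ← e2, SS_apply]
      exact norm_sub_le_norm_sub_add_norm_sub _ _ _
    have a2 := SS_le z w
    have a3 := norm_sub_norm_le w (SS z w)
    rw [inner_self_eq_norm_sq_to_K, norm_sub_rev]
    have : (1 : ℂ) - (RCLike.ofReal ‖SS z w‖ : ℂ) ^ 2 = ((1 - ‖SS z w‖ ^ 2 : ℝ) : ℂ) := by simp
    rw [hw] at a2 a3
    have a4 := norm_nonneg (SS z w)
    rw [this, Complex.norm_real, Real.norm_of_nonneg (by nlinarith)]
    nlinarith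
  refine (sum_le_sum fun m _ => key _ (he.1 _)).trans ?_
  rw [sum_add_distrib, ← mul_sum, ← mul_sum]
  have b1 := bessel he y1 N
  have b2 := bessel he (qq z.1 y2) N
  have b3 := (qq_le z.1 y2).trans h2
  have : 0 ≤ √(N : ℝ) := by positivity
  nlinarith

theorem fixed (K : Submodule ℂ H) [FiniteDimensional ℂ K] (g1 g2 : H × H →ᵇ H)
    (h1 : ∀ z, g1 z ∈ K) (h2 : ∀ z, g2 z ∈ K) (t : ℝ) (ht : 0 < t) :
    ∃ z, ‖SS z (g1 z)‖ ≤ t⁻¹ ∧ ‖SS z (g2 z)‖ ≤ t⁻¹ := by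
  set C : ℝ := ‖g1‖ + ‖g2‖ + 1 with hC
  have hC0 : 0 < C := by positivity
  let Z : K × K → H × H := fun y =>
    ((t : ℂ) • (y.1 : H), (t : ℂ) • qq ((t : ℂ) • (y.1 : H)) (y.2 : H))
  have hZ : Continuous Z := by
    refine Continuous.prodMk (by fun_prop) (Continuous.const_smul ?_ _)
    exact qq_cont.comp (f := fun y : K × K => ((t : ℂ) • (y.1 : H), (y.2 : H))) (by fun_prop)
  let f : K × K → K × K := fun y => (⟨g1 (Z y), h1 _⟩, ⟨g2 (Z y), h2 _⟩)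
  have hf : Continuous f := by
    refine Continuous.prodMk (Continuous.subtype_mk ?_ _) (Continuous.subtype_mk ?_ _)
    · exact g1.continuous.comp hZ
    · exact g2.continuous.comp hZ
  have hb : ∀ y, ‖f y‖ ≤ C := by
    intro y
    rw [Prod.norm_def, max_le_iff]
    have a1 := g1.norm_coe_le_norm (Z y)
    have a2 := g2.norm_coe_le_norm (Z y)
    constructor
    · change ‖g1 (Z y)‖ ≤ C
      linarith [norm_nonneg g2]
    · change ‖g2 (Z y)‖ ≤ C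
      linarith [norm_nonneg g1]
  have : FiniteDimensional ℝ K := Module.Finite.trans ℂ K
  obtain ⟨x, hx⟩ := Pool.Agent.H.MP_5de19d_an.brouwer (fun x : K × K => C⁻¹ • f (C • x))
    (by fun_prop) fun x => by
      rw [norm_smul, Real.norm_of_nonneg (by positivity), inv_mul_le_iff₀ hC0, mul_one]
      exact hb _
  have hy : f (C • x) = C • x := by
    conv_rhs => rw [← hx]
    rw [smul_smul, mul_inv_cancel₀ hC0.ne', one_smul]
  set y := C • x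
  have e1 : g1 (Z y) = y.1 := congrArg (fun p : K × K => (p.1 : H)) hy
  have e2 : g2 (Z y) = y.2 := congrArg (fun p : K × K => (p.2 : H)) hy
  refine ⟨Z y, ?_, ?_⟩
  · rw [e1, SS_apply]
    exact (qq_le _ _).trans (qq_scale t ht _)
  · rw [e2, SS_apply]
    exact qq_scale t ht _

theorem final {u w1 w2 : H} (hu : ‖u‖ = 1) {c1 c2 : ℂ} (h1 : ‖w1 - c1 • u‖ ≤ 1 / 5)
    (h2 : ‖w2 - c2 • u‖ ≤ 1 / 5) (h3 : ‖⟪w1, w1⟫_ℂ + ⟪w2, w2⟫_ℂ - 1‖ ≤ 1 / 10)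
    (h4 : ‖⟪w2, w1⟫_ℂ‖ ≤ 1 / 10) (h5 : ⟪u, w2⟫_ℂ = ⟪w1, u⟫_ℂ) : False := by
  have huu : ⟪u, u⟫_ℂ = 1 := by simp [hu]
  have key : ∀ (w : H) (c : ℂ), ‖w - c • u‖ ≤ 1 / 5 →
      ∃ r, w = ⟪u, w⟫_ℂ • u + r ∧ ⟪u, r⟫_ℂ = 0 ∧ ‖r‖ ≤ 2 / 5 := by
    intro w c h
    refine ⟨w - ⟪u, w⟫_ℂ • u, by abel, by
      rw [inner_sub_right, inner_smul_right, huu, mul_one, sub_self], ?_⟩
    have : w - ⟪u, w⟫_ℂ • u = (w - c • u) - ⟪u, w - c • u⟫_ℂ • u := by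
      simp only [inner_sub_right, inner_smul_right, huu, mul_one, sub_smul]
      abel
    rw [this]
    refine (norm_sub_le _ _).trans ?_
    rw [norm_smul, hu, mul_one]
    have := norm_inner_le_norm (𝕜 := ℂ) u (w - c • u)
    rw [hu] at this
    linarith
  obtain ⟨r1, a1, b1, d1⟩ := key w1 c1 h1
  obtain ⟨r2, a2, b2, d2⟩ := key w2 c2 h2
  set α := ⟪u, w1⟫_ℂ with hα
  have hβ : ⟪u, w2⟫_ℂ = (starRingEnd ℂ) α := by rw [h5, hα, inner_conj_symm]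
  rw [hβ] at a2
  have b1' : ⟪r1, u⟫_ℂ = 0 := inner_eq_zero_symm.1 b1
  have b2' : ⟪r2, u⟫_ℂ = 0 := inner_eq_zero_symm.1 b2
  have e1 : ⟪w2, w1⟫_ℂ = α * α + ⟪r2, r1⟫_ℂ := by
    rw [a2]
    conv_lhs => rw [a1]
    simp only [inner_add_left, inner_add_right, inner_smul_left, inner_smul_right, huu, b1, b2',
      Complex.conj_conj]
    ring
  have e2 : ⟪w1, w1⟫_ℂ + ⟪w2, w2⟫_ℂ - 1 =
      2 * (α * (starRingEnd ℂ) α) + ⟪r1, r1⟫_ℂ + ⟪r2, r2⟫_ℂ - 1 := by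
    rw [a2]
    conv_lhs => rw [a1]
    simp only [inner_add_left, inner_add_right, inner_smul_left, inner_smul_right, huu, b1, b2',
      b1', b2, Complex.conj_conj]
    ring
  have n1 := norm_inner_le_norm (𝕜 := ℂ) r2 r1
  have n2 := norm_inner_le_norm (𝕜 := ℂ) r1 r1
  have n3 := norm_inner_le_norm (𝕜 := ℂ) r2 r2
  have p1 := norm_nonneg r1
  have p2 := norm_nonneg r2
  have f1 : ‖α‖ * ‖α‖ ≤ 1 / 10 + 4 / 25 := by
    have : α * α = ⟪w2, w1⟫_ℂ - ⟪r2, r1⟫_ℂ := by rw [e1]; ring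
    rw [← norm_mul, this]
    refine (norm_sub_le _ _).trans ?_
    nlinarith
  have f2 : (1 : ℂ) = 2 * (α * (starRingEnd ℂ) α) + ⟪r1, r1⟫_ℂ + ⟪r2, r2⟫_ℂ -
      (⟪w1, w1⟫_ℂ + ⟪w2, w2⟫_ℂ - 1) := by rw [e2]; ring
  have f3 := congrArg norm f2
  have f4 := (norm_sub_le (2 * (α * (starRingEnd ℂ) α) + ⟪r1, r1⟫_ℂ + ⟪r2, r2⟫_ℂ)
    (⟪w1, w1⟫_ℂ + ⟪w2, w2⟫_ℂ - 1)).trans (add_le_add (norm_add₃_le) h3)
  rw [← f3, norm_one, norm_mul, norm_mul, Complex.norm_conj, Complex.norm_ofNat] at f4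
  nlinarith

end Pool.Agent.H.MP_4d6ef8_an
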