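import Pool.Agent.H.MP_4d6ef8_an.A

set_option autoImplicit false

namespace Pool.Agent.H.MP_4d6ef8_an

open scoped InnerProductSpace BoundedContinuousFunction
open Finset InnerProductSpace Filter Topology

/-- the Hilbert space -/
def HH : Type := lp (fun _ : ℕ => ℂ) 2

noncomputable instance : NormedAddCommGroup HH :=
  inferInstanceAs (NormedAddCommGroup (lp (fun _ : ℕ => ℂ) 2))

noncomputable instance : InnerProductSpace ℂ HH :=
  inferInstanceAs (InnerProductSpace ℂ (lp (fun _ : ℕ => ℂ) 2))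

instance : CompleteSpace HH := inferInstanceAs (CompleteSpace (lp (fun _ : ℕ => ℂ) 2))

/-- its basis -/
noncomputable def ee : ℕ → HH := (default : HilbertBasis ℕ ℂ (lp (fun _ : ℕ => ℂ) 2))

theorem ee_on : Orthonormal ℂ ee :=
  (default : HilbertBasis ℕ ℂ (lp (fun _ : ℕ => ℂ) 2)).orthonormal

/-- the base -/
abbrev XX : Type := ℕ × (HH × HH)

/-- the ambient algebra -/
abbrev Amb : Type := XX →ᵇ (HH →L[ℂ] HH)

/-- the generating fields -/
noncomputable def xi (z : HH × HH) : ℕ → HH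
  | 0 => ee 0
  | i + 1 => SS z (ee (i + 1))

theorem xi_le (z : HH × HH) (i : ℕ) : ‖xi z i‖ ≤ 1 := by
  cases i with
  | zero => exact (ee_on.1 0).le
  | succ i => exact (SS_le _ _).trans (ee_on.1 _).le

theorem xi_cont (i : ℕ) : Continuous fun z => xi z i := by
  cases i with
  | zero => exact continuous_const
  | succ i => exact SS_cont _

/-- localised fields -/
noncomputable def eta (k i : ℕ) (x : XX) : HH := if x.1 = k then xi x.2 i else 0

theorem eta_le (k i : ℕ) (x : XX) : ‖eta k i x‖ ≤ 1 := by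
  unfold eta
  split_ifs
  · exact xi_le _ _
  · simp

theorem eta_cont (k i : ℕ) : Continuous (eta k i) := by
  rw [continuous_prod_of_discrete_left]
  intro a
  by_cases h : a = k
  · simpa [eta, h] using xi_cont i
  · simpa [eta, h] using continuous_const

theorem rankOne_cont : Continuous fun p : HH × HH => rankOne ℂ p.1 p.2 := by
  have : Continuous fun p : HH × HH =>
      ContinuousLinearMap.smulRightL ℂ HH HH (innerSL ℂ p.2) p.1 := by fun_prop
  exact this

/-- generators -/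
noncomputable def th (k i j : ℕ) : Amb :=
  BoundedContinuousFunction.ofNormedAddCommGroup (fun x => rankOne ℂ (eta k i x) (eta k j x))
    (rankOne_cont.comp (f := fun x => (eta k i x, eta k j x))
      ((eta_cont k i).prodMk (eta_cont k j))) 1 fun x => by
      rw [norm_rankOne]
      exact mul_le_one₀ (eta_le _ _ _) (norm_nonneg _) (eta_le _ _ _)

theorem th_apply (k i j : ℕ) (x : XX) : th k i j x = rankOne ℂ (eta k i x) (eta k j x) := rfl

theorem th_star (k i j : ℕ) : star (th k i j) = th k j i := by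
  ext1 x
  change star (th k i j x) = _
  rw [th_apply, th_apply, ContinuousLinearMap.star_eq_adjoint, adjoint_rankOne]

/-- generating set -/
def Gen : Set Amb := Set.range fun p : ℕ × ℕ × ℕ => th p.1 p.2.1 p.2.2

/-- the algebra -/
noncomputable def AS : NonUnitalStarSubalgebra ℂ Amb :=
  (NonUnitalStarAlgebra.adjoin ℂ Gen).topologicalClosure

/-- a right ideal -/
noncomputable def WW : Submodule ℂ Amb := Submodule.span ℂ {b | ∃ k i j c, b = th k i j * c}

theorem WW_mul {b : Amb} (hb : b ∈ WW) (c : Amb) : b * c ∈ WW := by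
  induction hb using Submodule.span_induction with
  | mem x hx =>
    obtain ⟨k, i, j, d, rfl⟩ := hx
    exact Submodule.subset_span ⟨k, i, j, d * c, mul_assoc _ _ _⟩
  | zero => simp
  | add x y _ _ hx hy => rw [add_mul]; exact WW.add_mem hx hy
  | smul a x _ hx => rw [smul_mul_assoc]; exact WW.smul_mem a hx

theorem adjoin_le {b : Amb} (hb : b ∈ NonUnitalStarAlgebra.adjoin ℂ Gen) :
    b ∈ WW ∧ star b ∈ WW := by
  induction hb using NonUnitalStarAlgebra.adjoin_induction with
  | mem x hx =>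
    obtain ⟨⟨k, i, j⟩, rfl⟩ := hx
    exact ⟨Submodule.subset_span ⟨k, i, j, 1, (mul_one _).symm⟩,
      Submodule.subset_span ⟨k, j, i, 1, by rw [mul_one]; exact th_star _ _ _⟩⟩
  | add x y _ _ hx hy => exact ⟨WW.add_mem hx.1 hy.1, by rw [star_add]; exact WW.add_mem hx.2 hy.2⟩
  | zero => simp
  | mul x y _ _ hx hy => exact ⟨WW_mul hx.1 _, by rw [star_mul]; exact WW_mul hy.2 _⟩
  | smul r x _ hx => exact ⟨WW.smul_mem _ hx.1, by rw [star_smul]; exact WW.smul_mem _ hx.2⟩
  | star x _ hx => exact ⟨hx.2, by rw [star_star]; exact hx.1⟩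

theorem approx {a : Amb} (ha : a ∈ AS) {δ : ℝ} (hδ : 0 < δ) : ∃ b ∈ WW, ‖a - b‖ < δ := by
  obtain ⟨b, hb, h⟩ := Metric.mem_closure_iff.1 ha δ hδ
  exact ⟨b, (adjoin_le hb).1, by rwa [← dist_eq_norm]⟩

theorem E1 {a : Amb} (ha : a ∈ AS) {δ : ℝ} (hδ : 0 < δ) :
    ∀ᶠ k in atTop, ∀ z, ‖a (k, z)‖ ≤ δ := by
  obtain ⟨b, hb, h⟩ := approx ha hδ
  have : ∀ᶠ k in atTop, ∀ z, b (k, z) = 0 := by
    clear h
    induction hb using Submodule.span_induction with
    | mem x hx =>
      obtain ⟨k, i, j, d, rfl⟩ := hx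
      filter_upwards [eventually_gt_atTop k] with l hl z
      simp [th_apply, eta, hl.ne']
    | zero => simp
    | add x y _ _ hx hy =>
      filter_upwards [hx, hy] with l h1 h2 z
      simp [h1 z, h2 z]
    | smul a x _ hx =>
      filter_upwards [hx] with l h1 z
      simp [h1 z]
  filter_upwards [this] with k hk z
  have := (a - b).norm_coe_le_norm (k, z)
  rw [BoundedContinuousFunction.sub_apply, hk, sub_zero] at this
  linarith

theorem E2W {b : Amb} (hb : b ∈ WW) : ∃ C : ℝ, ∀ (N : ℕ) (x : XX),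
    ∑ m ∈ range N, ‖⟪xi x.2 (m + 1), b x (xi x.2 (m + 1))⟫_ℂ‖ ≤ C * √N := by
  induction hb using Submodule.span_induction with
  | mem x hx =>
    obtain ⟨k, i, j, d, rfl⟩ := hx
    refine ⟨‖d‖, fun N x => ?_⟩
    have h1 := SS_bessel ee_on x.2 (eta k i x) N
    have h2 := eta_le k i x
    calc _ ≤ ∑ m ∈ range N, ‖d‖ * ‖⟪eta k i x, SS x.2 (ee (m + 1))⟫_ℂ‖ := by
          refine sum_le_sum fun m _ => ?_
          change ‖⟪xi x.2 (m + 1), th k i j x (d x (xi x.2 (m + 1)))⟫_ℂ‖ ≤ _
          rw [th_apply, rankOne_apply, inner_smul_right, norm_mul, norm_inner_symm _ (eta k i x)]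
          refine mul_le_mul_of_nonneg_right ?_ (norm_nonneg _)
          calc _ ≤ ‖eta k j x‖ * ‖d x (xi x.2 (m + 1))‖ := norm_inner_le_norm _ _
            _ ≤ 1 * (‖d‖ * 1) := by
              gcongr
              · exact eta_le _ _ _
              · refine ((d x).le_opNorm _).trans ?_
                gcongr
                · exact d.norm_coe_le_norm x
                · exact xi_le _ _
            _ = _ := by ring
      _ ≤ ‖d‖ * (√N * 1) := by
          rw [← mul_sum]
          gcongr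
          refine h1.trans ?_
          gcongr
      _ = _ := by ring
  | zero => exact ⟨0, by simp⟩
  | add x y _ _ hx hy =>
    obtain ⟨C, hC⟩ := hx
    obtain ⟨D, hD⟩ := hy
    refine ⟨C + D, fun N w => ?_⟩
    rw [add_mul]
    refine le_trans ?_ (add_le_add (hC N w) (hD N w))
    rw [← sum_add_distrib]
    refine sum_le_sum fun m _ => ?_
    rw [BoundedContinuousFunction.add_apply, add_apply, inner_add_right]
    exact norm_add_le _ _
  | smul a x _ hx =>
    obtain ⟨C, hC⟩ := hx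
    refine ⟨‖a‖ * C, fun N w => ?_⟩
    rw [mul_assoc]
    refine le_trans (le_of_eq ?_) (mul_le_mul_of_nonneg_left (hC N w) (norm_nonneg a))
    rw [mul_sum]
    refine sum_congr rfl fun m _ => ?_
    rw [BoundedContinuousFunction.smul_apply, smul_apply, inner_smul_right, norm_mul]

theorem sqrt_small (C : ℝ) {δ : ℝ} (hδ : 0 < δ) : ∀ᶠ N : ℕ in atTop, C * √N ≤ δ * N := by
  have : Tendsto (fun N : ℕ => √(N : ℝ)) atTop atTop :=
    Real.tendsto_sqrt_atTop.comp tendsto_natCast_atTop_atTop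
  filter_upwards [this.eventually_ge_atTop (C / δ)] with N hN
  rw [div_le_iff₀ hδ] at hN
  have h1 : √(N : ℝ) * √N = N := Real.mul_self_sqrt (by positivity)
  have h2 : 0 ≤ √(N : ℝ) := by positivity
  nlinarith

theorem E2 {a : Amb} (ha : a ∈ AS) {δ : ℝ} (hδ : 0 < δ) : ∀ᶠ N : ℕ in atTop, ∀ x : XX,
    ∑ m ∈ range N, ‖⟪xi x.2 (m + 1), a x (xi x.2 (m + 1))⟫_ℂ‖ ≤ δ * N := by
  obtain ⟨b, hb, h⟩ := approx ha (half_pos hδ)
  obtain ⟨C, hC⟩ := E2W hb
  filter_upwards [sqrt_small C (half_pos hδ)] with N hN x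
  have : ∀ m, ‖⟪xi x.2 (m + 1), a x (xi x.2 (m + 1))⟫_ℂ‖ ≤
      ‖⟪xi x.2 (m + 1), b x (xi x.2 (m + 1))⟫_ℂ‖ + δ / 2 := by
    intro m
    have e : a x (xi x.2 (m + 1)) = b x (xi x.2 (m + 1)) + (a - b) x (xi x.2 (m + 1)) := by simp
    rw [e, inner_add_right]
    refine (norm_add_le _ _).trans (add_le_add le_rfl ?_)
    calc _ ≤ ‖xi x.2 (m + 1)‖ * ‖(a - b) x (xi x.2 (m + 1))‖ := norm_inner_le_norm _ _
      _ ≤ 1 * (δ / 2 * 1) := by
        gcongr
        · exact xi_le _ _
        · refine (((a - b) x).le_opNorm _).trans ?_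
          gcongr
          · exact ((a - b).norm_coe_le_norm x).trans h.le
          · exact xi_le _ _
      _ = _ := by ring
  refine (sum_le_sum fun m _ => this m).trans ?_
  rw [sum_add_distrib, sum_const, card_range, nsmul_eq_mul]
  linarith [hC N x]

theorem E3W (k : ℕ) {b : Amb} (hb : b ∈ WW) : ∃ K : Submodule ℂ HH, FiniteDimensional ℂ K ∧
    ∃ (g : HH × HH →ᵇ HH) (c : HH × HH → ℂ), (∀ z, g z ∈ K) ∧
      ∀ z, b (k, z) (ee 0) = c z • ee 0 + SS z (g z) := by
  induction hb using Submodule.span_induction with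
  | mem x hx =>
    obtain ⟨l, i, j, d, rfl⟩ := hx
    have hap : ∀ z, (th l i j * d) (k, z) (ee 0) =
        ⟪eta l j (k, z), d (k, z) (ee 0)⟫_ℂ • eta l i (k, z) := fun z => rfl
    by_cases hl : k = l
    · cases i with
      | zero =>
        exact ⟨⊥, inferInstance, 0, fun z => ⟪eta l j (k, z), d (k, z) (ee 0)⟫_ℂ, by simp,
          fun z => by rw [hap]; simp [eta, hl, xi]⟩
      | succ i =>
        refine ⟨Submodule.span ℂ {ee (i + 1)}, inferInstance,
          BoundedContinuousFunction.ofNormedAddCommGroup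
            (fun z => ⟪eta l j (k, z), d (k, z) (ee 0)⟫_ℂ • ee (i + 1)) ?_ ‖d‖ ?_, 0,
          fun z => Submodule.smul_mem _ _ (Submodule.mem_span_singleton_self _), fun z => ?_⟩
        · have := eta_cont l j
          have := d.continuous
          fun_prop
        · intro z
          rw [norm_smul, ee_on.1, mul_one]
          calc _ ≤ ‖eta l j (k, z)‖ * ‖d (k, z) (ee 0)‖ := norm_inner_le_norm _ _
            _ ≤ 1 * (‖d‖ * 1) := by
              gcongr
              · exact eta_le _ _ _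
              · refine ((d _).le_opNorm _).trans ?_
                gcongr
                · exact d.norm_coe_le_norm _
                · exact (ee_on.1 _).le
            _ = _ := by ring
        · rw [hap]
          simp [eta, hl, xi]
    · exact ⟨⊥, inferInstance, 0, 0, by simp, fun z => by rw [hap]; simp [eta, hl]⟩
  | zero => exact ⟨⊥, inferInstance, 0, 0, by simp, by simp⟩
  | add x y _ _ hx hy =>
    obtain ⟨K, _, g, c, h1, h2⟩ := hx
    obtain ⟨L, _, g', c', h1', h2'⟩ := hy
    refine ⟨K ⊔ L, inferInstance, g + g', c + c', fun z => Submodule.add_mem_sup (h1 z) (h1' z),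
      fun z => ?_⟩
    simp only [BoundedContinuousFunction.add_apply, add_apply, h2, h2', Pi.add_apply, add_smul,
      map_add]
    abel
  | smul a x _ hx =>
    obtain ⟨K, _, g, c, h1, h2⟩ := hx
    refine ⟨K, inferInstance, a • g, a • c, fun z => K.smul_mem a (h1 z), fun z => ?_⟩
    simp only [BoundedContinuousFunction.smul_apply, smul_apply, h2, Pi.smul_apply, smul_add,
      map_smul, smul_smul, smul_eq_mul]

theorem E3 (k : ℕ) {a1 a2 : Amb} (h1 : a1 ∈ AS) (h2 : a2 ∈ AS) : ∃ (z : HH × HH) (c1 c2 : ℂ),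
    ‖a1 (k, z) (ee 0) - c1 • ee 0‖ ≤ 1 / 5 ∧ ‖a2 (k, z) (ee 0) - c2 • ee 0‖ ≤ 1 / 5 := by
  obtain ⟨b1, hb1, e1⟩ := approx h1 (δ := 1 / 10) (by norm_num)
  obtain ⟨b2, hb2, e2⟩ := approx h2 (δ := 1 / 10) (by norm_num)
  obtain ⟨K, _, g, c, p1, p2⟩ := E3W k hb1
  obtain ⟨L, _, g', c', q1, q2⟩ := E3W k hb2
  obtain ⟨z, r1, r2⟩ := fixed (K ⊔ L) g g' (fun z => Submodule.mem_sup_left (p1 z))
    (fun z => Submodule.mem_sup_right (q1 z)) 10 (by norm_num)
  have key : ∀ (a b : Amb) (c : ℂ) (w : HH), ‖a - b‖ < 1 / 10 → ‖w‖ ≤ 10⁻¹ →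
      b (k, z) (ee 0) = c • ee 0 + w → ‖a (k, z) (ee 0) - c • ee 0‖ ≤ 1 / 5 := by
    intro a b c w ha hw hb
    have : a (k, z) (ee 0) - c • ee 0 = (a - b) (k, z) (ee 0) + w := by
      rw [BoundedContinuousFunction.sub_apply, sub_apply, hb]
      abel
    rw [this]
    refine (norm_add_le _ _).trans ?_
    have h3 := ((a - b) (k, z)).le_opNorm (ee 0)
    rw [ee_on.1, mul_one] at h3
    have h4 := (a - b).norm_coe_le_norm (k, z)
    linarith
  exact ⟨z, c z, c' z, key _ _ _ _ e1 r1 (p2 z), key _ _ _ _ e2 r2 (q2 z)⟩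

end Pool.Agent.H.MP_4d6ef8_an
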