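import Pool.Agent.H.MP_4d6ef8_an.B

set_option autoImplicit false

namespace Pool.Agent.H.MP_4d6ef8_an

open scoped InnerProductSpace BoundedContinuousFunction
open Finset InnerProductSpace Filter Topology

/-- the algebra as a type -/
def AT : Type := AS

noncomputable instance : NonUnitalCStarAlgebra AT :=
  NonUnitalStarSubalgebra.nonUnitalCStarAlgebra AS
    (h_closed := NonUnitalStarSubalgebra.isClosed_topologicalClosure _)

/-- inclusion -/
noncomputable def inc : AT →⋆ₙₐ[ℂ] Amb := NonUnitalStarSubalgebraClass.subtype AS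

theorem inc_mem (a : AT) : inc a ∈ AS := a.2

theorem inc_norm (a : AT) : ‖inc a‖ = ‖a‖ := rfl

/-- generators inside the algebra -/
noncomputable def tt (k i j : ℕ) : AT :=
  ⟨th k i j, subset_closure (NonUnitalStarAlgebra.subset_adjoin ℂ Gen ⟨(k, i, j), rfl⟩)⟩

theorem inc_tt (k i j : ℕ) : inc (tt k i j) = th k i j := rfl

theorem tt_star (k i j : ℕ) : star (tt k i j) = tt k j i := Subtype.ext (th_star k i j)

theorem AT_sep : TopologicalSpace.SeparableSpace AT := by
  have h1 : (Gen ∪ star Gen).Countable := by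
    refine (Set.countable_range _).union ?_
    rw [← Set.image_star]
    exact (Set.countable_range _).image _
  have h2 : (Subsemigroup.closure (Gen ∪ star Gen) : Set Amb).Countable := by
    have := h1.to_subtype
    refine (Set.countable_range fun l : List (Gen ∪ star Gen : Set Amb) =>
      (l.map Subtype.val).prod).mono fun x hx => ?_
    induction hx using Subsemigroup.closure_induction with
    | mem x hx => exact ⟨[⟨x, hx⟩], by simp⟩
    | mul x y _ _ hx hy =>
      obtain ⟨l, rfl⟩ := hx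
      obtain ⟨m, rfl⟩ := hy
      exact ⟨l ++ m, by simp⟩
  have h3 : TopologicalSpace.IsSeparable (AS : Set Amb) := by
    have := (h2.isSeparable.span (R := ℂ)).closure
    rw [← NonUnitalStarAlgebra.adjoin_eq_span] at this
    exact this
  exact h3.separableSpace

theorem gen_top (I : Submodule ℂ AT) (hc : IsClosed (I : Set AT))
    (hI : ∀ a, ∀ x ∈ I, a * x ∈ I ∧ x * a ∈ I) (ht : ∀ k i j, tt k i j ∈ I) : I = ⊤ := by
  have key : ∀ b (hb : b ∈ NonUnitalStarAlgebra.adjoin ℂ Gen),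
      ∀ a : AT, inc a = b → a ∈ I ∧ star a ∈ I := by
    intro b hb
    induction hb using NonUnitalStarAlgebra.adjoin_induction with
    | mem x hx =>
      obtain ⟨⟨k, i, j⟩, rfl⟩ := hx
      intro a ha
      obtain rfl : a = tt k i j := Subtype.ext ha
      exact ⟨ht _ _ _, tt_star k i j ▸ ht _ _ _⟩
    | add x y h1 h2 hx hy =>
      intro a ha
      let x' : AT := ⟨x, subset_closure h1⟩
      let y' : AT := ⟨y, subset_closure h2⟩
      obtain rfl : a = x' + y' := Subtype.ext ha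
      exact ⟨I.add_mem (hx x' rfl).1 (hy y' rfl).1, by
        rw [star_add]; exact I.add_mem (hx x' rfl).2 (hy y' rfl).2⟩
    | zero =>
      intro a ha
      obtain rfl : a = 0 := Subtype.ext ha
      simp
    | mul x y h1 h2 hx hy =>
      intro a ha
      let x' : AT := ⟨x, subset_closure h1⟩
      let y' : AT := ⟨y, subset_closure h2⟩
      obtain rfl : a = x' * y' := Subtype.ext ha
      exact ⟨(hI _ _ (hx x' rfl).1).2, by rw [star_mul]; exact (hI _ _ (hy y' rfl).2).2⟩
    | smul r x h1 hx =>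
      intro a ha
      let x' : AT := ⟨x, subset_closure h1⟩
      obtain rfl : a = r • x' := Subtype.ext ha
      exact ⟨I.smul_mem _ (hx x' rfl).1, by rw [star_smul]; exact I.smul_mem _ (hx x' rfl).2⟩
    | star x h1 hx =>
      intro a ha
      let x' : AT := ⟨x, subset_closure h1⟩
      obtain rfl : a = star x' := Subtype.ext ha
      exact ⟨(hx x' rfl).2, by rw [star_star]; exact (hx x' rfl).1⟩
  rw [eq_top_iff]
  intro a _
  rw [← SetLike.mem_coe, ← hc.closure_eq, Metric.mem_closure_iff]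
  intro δ hδ
  obtain ⟨b, hb, h⟩ := Metric.mem_closure_iff.1 (inc_mem a) δ hδ
  exact ⟨(⟨b, subset_closure hb⟩ : AS), (key b hb _ rfl).1, h⟩

theorem no_unit (I : Submodule ℂ AT) (hc : IsClosed (I : Set AT))
    (hI : ∀ a, ∀ x ∈ I, a * x ∈ I ∧ x * a ∈ I) (e : AT) (he : ∀ a, e * a - a ∈ I) : I = ⊤ := by
  refine gen_top I hc hI fun k i j => ?_
  rw [← SetLike.mem_coe, ← hc.closure_eq, Metric.mem_closure_iff]
  intro δ hδ
  have hδ' : 0 < δ / 3 := by positivity
  obtain ⟨N, ⟨h1, h2⟩, h3⟩ :=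
    (((E2 (inc_mem e) hδ').and (sqrt_small 4 hδ')).and (eventually_gt_atTop 0)).exists
  have hN : (0 : ℝ) < N := by exact_mod_cast h3
  have hN' : (N : ℂ) ≠ 0 := by exact_mod_cast h3.ne'
  refine ⟨-((N : ℂ)⁻¹ • ∑ m ∈ range N, tt k i (m + 1) * (e * tt k (m + 1) j - tt k (m + 1) j)),
    I.neg_mem (I.smul_mem _ (I.sum_mem fun m _ => (hI _ _ (he _)).1)), ?_⟩
  rw [dist_eq_norm, ← inc_norm]
  refine lt_of_le_of_lt ((BoundedContinuousFunction.norm_le (C := 2 * (δ / 3))
    (by positivity)).2 fun x => ?_) (by linarith)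
  have hm : ∀ m, inc (tt k i (m + 1) * (e * tt k (m + 1) j - tt k (m + 1) j)) x =
      (⟪eta k (m + 1) x, inc e x (eta k (m + 1) x)⟫_ℂ - ⟪eta k (m + 1) x, eta k (m + 1) x⟫_ℂ) •
        th k i j x := by
    intro m
    rw [map_mul, map_sub, map_mul, inc_tt, inc_tt]
    ext v
    simp only [BoundedContinuousFunction.mul_apply, BoundedContinuousFunction.sub_apply, th_apply,
      mul_apply_eq_comp, sub_apply, rankOne_apply, map_smul, smul_apply, smul_smul,
      inner_sub_right, inner_smul_right]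
    congr 1
    ring
  rw [sub_neg_eq_add, map_add, map_smul, map_sum, inc_tt, BoundedContinuousFunction.add_apply,
    BoundedContinuousFunction.smul_apply, BoundedContinuousFunction.sum_apply]
  simp only [hm, ← sum_smul, smul_smul]
  by_cases hk : x.1 = k
  · nth_rewrite 1 [← one_smul ℂ (th k i j x)]
    rw [← add_smul, norm_smul]
    have a1 : ‖th k i j x‖ ≤ 1 := by
      rw [th_apply, norm_rankOne]
      exact mul_le_one₀ (eta_le _ _ _) (norm_nonneg _) (eta_le _ _ _)
    have a2 : (1 : ℂ) + (N : ℂ)⁻¹ * ∑ m ∈ range N,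
        (⟪eta k (m + 1) x, inc e x (eta k (m + 1) x)⟫_ℂ - ⟪eta k (m + 1) x, eta k (m + 1) x⟫_ℂ) =
        (N : ℂ)⁻¹ * (∑ m ∈ range N, ⟪xi x.2 (m + 1), inc e x (xi x.2 (m + 1))⟫_ℂ -
          ∑ m ∈ range N, (⟪SS x.2 (ee (m + 1)), SS x.2 (ee (m + 1))⟫_ℂ - 1)) := by
      simp only [eta, if_pos hk, sum_sub_distrib, sum_const, card_range, nsmul_eq_mul, mul_one, xi]
      field_simp
      ring
    have a3 := (norm_sum_le _ _).trans (h1 x)
    have a4 := (norm_sum_le _ _).trans ((SS_near ee_on x.2 N).trans h2)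
    have a5 := (norm_sub_le _ _).trans (add_le_add a3 a4)
    rw [a2, norm_mul, norm_inv, Complex.norm_natCast]
    calc _ ≤ (N : ℝ)⁻¹ * (δ / 3 * N + δ / 3 * N) * 1 := by gcongr
      _ = _ := by field_simp; ring
  · have : th k i j x = 0 := by simp [th_apply, eta, hk]
    rw [this]
    simp only [smul_zero, add_zero, norm_zero]
    positivity

/-- evaluation -/
noncomputable def evx (x : XX) : Amb →ₐ[ℂ] (HH →L[ℂ] HH) where
  toFun a := a x
  map_one' := rfl
  map_mul' _ _ := rfl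
  map_zero' := rfl
  map_add' _ _ := rfl
  commutes' _ := rfl

instance : Nontrivial HH := ⟨ee 0, 0, ee_on.ne_zero 0⟩

theorem fd_const (B : NonUnitalStarSubalgebra ℂ AT) [FiniteDimensional ℂ B] {b : AT} (hb : b ∈ B)
    (z w : HH × HH) : ‖inc b (0, z)‖ = ‖inc b (0, w)‖ := by
  set c : Amb := inc (star b * b) with hc
  have h1 : IsIntegral ℂ c := by
    have : Module.Finite ℂ (Unitization ℂ B) :=
      Module.Finite.equiv (Unitization.linearEquiv ℂ ℂ B).symm
    let φ : Unitization ℂ B →ₐ[ℂ] Amb := Unitization.lift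
      (inc.toNonUnitalAlgHom.comp (NonUnitalStarSubalgebraClass.subtype B).toNonUnitalAlgHom)
    have := (IsIntegral.of_finite ℂ ((⟨star b * b, mul_mem (star_mem hb) hb⟩ : B) :
      Unitization ℂ B)).map φ
    simpa [φ, hc] using this
  have h2 : (spectrum ℂ c).Finite := by
    obtain ⟨q, hq, hq0⟩ := h1
    refine (q.roots.toFinset.finite_toSet).subset fun l hl => ?_
    have h0 := spectrum.subset_polynomial_aeval c q ⟨l, hl, rfl⟩
    have : Nontrivial Amb := ⟨0, 1, fun h => by simpa using DFunLike.congr_fun h (0, 0)⟩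
    rw [Polynomial.aeval_def, hq0, spectrum.zero_eq, Set.mem_singleton_iff] at h0
    simpa [hq.ne_zero] using h0
  have h3 : ∀ x, ((‖inc b x‖ ^ 2 : ℝ) : ℂ) ∈ spectrum ℂ c := by
    intro x
    have e : c x = star (inc b x) * inc b x := by
      rw [hc, map_mul, map_star]
      rfl
    have := CStarAlgebra.norm_mem_spectrum_of_nonneg (a := c x) (e ▸ star_mul_self_nonneg _)
    have h4 := spectrum.algebraMap_mem ℂ this
    rw [e, CStarRing.norm_star_mul_self, ← e, ← sq] at h4
    exact AlgHom.spectrum_apply_subset (evx x) c h4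
  have h5 : Continuous fun z : HH × HH => ((‖inc b (0, z)‖ ^ 2 : ℝ) : ℂ) := by
    have := (inc b).continuous
    fun_prop
  have h6 := IsPreconnected.constant_of_mapsTo (isPreconnected_univ (α := HH × HH))
    h2.isDiscrete h5.continuousOn (fun z _ => h3 (0, z)) (Set.mem_univ z) (Set.mem_univ w)
  have h7 : ‖inc b (0, z)‖ ^ 2 = ‖inc b (0, w)‖ ^ 2 := by exact_mod_cast h6
  exact (sq_eq_sq₀ (norm_nonneg _) (norm_nonneg _)).1 h7

theorem not_af (B : ℕ → NonUnitalStarSubalgebra ℂ AT) (hB : ∀ n, FiniteDimensional ℂ (B n))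
    (hd : Dense (⋃ n, (B n : Set AT))) : False := by
  obtain ⟨b, hb, h⟩ := hd.exists_dist_lt (tt 0 1 1) (ε := 1 / 4) (by norm_num)
  obtain ⟨n, hn⟩ := Set.mem_iUnion.1 hb
  have := hB n
  have h1 := fd_const (B n) hn (0, 0) ((2 : ℂ) • ee 1, 0)
  rw [dist_eq_norm, ← inc_norm, map_sub, inc_tt] at h
  have h2 : ∀ x, |‖th 0 1 1 x‖ - ‖inc b x‖| < 1 / 4 := fun x =>
    (abs_norm_sub_norm_le _ _).trans_lt (((th 0 1 1 - inc b).norm_coe_le_norm x).trans_lt h)
  have h3 : ‖th 0 1 1 (0, 0, 0)‖ = 1 := by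
    simp [th_apply, eta, xi, SS_apply, qq_apply, ee_on.1]
  have h4 : ‖th 0 1 1 (0, (2 : ℂ) • ee 1, 0)‖ ≤ 2⁻¹ * 2⁻¹ := by
    have : ‖eta 0 1 (0, (2 : ℂ) • ee 1, 0)‖ ≤ 2⁻¹ :=
      (qq_le _ _).trans (qq_scale 2 (by norm_num) (ee 1))
    rw [th_apply, norm_rankOne]
    gcongr
  have a1 := abs_lt.1 (h2 (0, 0, 0))
  have a2 := abs_lt.1 (h2 (0, (2 : ℂ) • ee 1, 0))
  linarith [a1.1, a1.2, a2.1, a2.2]

theorem no_half (v : DoubleCentralizer ℂ AT) (a a' : AT)
    (h1 : star v * v + v * star v - 1 = DoubleCentralizer.coe ℂ a)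
    (h2 : v * v = DoubleCentralizer.coe ℂ a') : False := by
  obtain ⟨k, k1, k2⟩ := ((E1 (inc_mem a) (δ := 1 / 10) (by norm_num)).and
    (E1 (inc_mem a') (δ := 1 / 10) (by norm_num))).exists
  set p := tt k 0 0 with hp
  have hps : star p = p := tt_star _ _ _
  set b1 := v.fst p with hb1
  set b2 := (star v).fst p with hb2
  have s1 : star b1 = (star v).snd p := by rw [DoubleCentralizer.star_snd, hps]
  have s2 : star b2 = v.snd p := by rw [hb2, DoubleCentralizer.star_fst, hps, star_star]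
  have e1 : star b1 * b1 + star b2 * b2 - p * p = p * (a * p) := by
    have := congrArg (fun m : DoubleCentralizer ℂ AT => p * m.fst p) h1
    simp only [DoubleCentralizer.sub_fst, DoubleCentralizer.add_fst, DoubleCentralizer.mul_fst,
      DoubleCentralizer.one_fst, sub_apply, add_apply, mul_apply_eq_comp, mul_sub, mul_add] at this
    rw [s1, s2, (star v).central, v.central]
    exact this
  have e2 : star b2 * b1 = p * (a' * p) := by
    have := congrArg (fun m : DoubleCentralizer ℂ AT => p * m.fst p) h2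
    rw [s2, v.central]
    exact this
  have e3 : p * b2 = star (p * b1) := by
    rw [star_mul, hps, s1, (star v).central]
  obtain ⟨z, c1, c2, r1, r2⟩ := E3 k (inc_mem b1) (inc_mem b2)
  have hu : ‖ee 0‖ = 1 := ee_on.1 0
  have pe : inc p (k, z) = rankOne ℂ (ee 0) (ee 0) := by simp [hp, inc_tt, th_apply, eta, xi]
  have huu : ⟪ee 0, ee 0⟫_ℂ = 1 := by simp [hu]
  have pe1 : inc p (k, z) (ee 0) = ee 0 := by rw [pe, rankOne_apply, huu, one_smul]
  have F1 : ∀ s t : AT, ⟪ee 0, inc (star s * t) (k, z) (ee 0)⟫_ℂ =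
      ⟪inc s (k, z) (ee 0), inc t (k, z) (ee 0)⟫_ℂ := by
    intro s t
    rw [map_mul, map_star, ← ContinuousLinearMap.adjoint_inner_right]
    rfl
  have F2 : ∀ t : AT, ⟪ee 0, inc (p * t) (k, z) (ee 0)⟫_ℂ = ⟪ee 0, inc t (k, z) (ee 0)⟫_ℂ := by
    intro t
    nth_rewrite 1 [← hps]
    rw [F1, pe1]
  have F3 : ∀ t : AT, ‖inc t (k, z)‖ ≤ 1 / 10 →
      ‖⟪ee 0, inc (p * (t * p)) (k, z) (ee 0)⟫_ℂ‖ ≤ 1 / 10 := by
    intro t ht
    rw [F2, map_mul]
    change ‖⟪ee 0, inc t (k, z) (inc p (k, z) (ee 0))⟫_ℂ‖ ≤ _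
    rw [pe1]
    refine (norm_inner_le_norm _ _).trans ?_
    have := (inc t (k, z)).le_opNorm (ee 0)
    rw [hu] at this ⊢
    linarith
  refine final hu r1 r2 ?_ ?_ ?_
  · have := F3 a (k1 z)
    rw [← e1, map_sub, map_add, BoundedContinuousFunction.sub_apply,
      BoundedContinuousFunction.add_apply, sub_apply, add_apply, inner_sub_right, inner_add_right,
      F1, F1, F2, pe1, huu] at this
    exact this
  · have := F3 a' (k2 z)
    rwa [← e2, F1] at this
  · rw [← F2, e3, star_mul, hps, F1, pe1]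

theorem cancel {A : Type} [NonUnitalCStarAlgebra A] {x y : A} (h : ∀ c, c * x = c * y) : x = y := by
  rw [← sub_eq_zero, ← CStarRing.star_mul_self_eq_zero_iff, mul_sub, h, sub_self]

theorem cancel' {A : Type} [NonUnitalCStarAlgebra A] {x y : A} (h : ∀ c, x * c = y * c) :
    x = y := by
  rw [← sub_eq_zero, ← CStarRing.mul_star_self_eq_zero_iff, sub_mul, h, sub_self]

theorem mul_coe {A : Type} [NonUnitalCStarAlgebra A] (m : DoubleCentralizer ℂ A) (a : A) :
    m * DoubleCentralizer.coeHom (𝕜 := ℂ) a = DoubleCentralizer.coeHom (𝕜 := ℂ) (m.fst a) := by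
  refine DoubleCentralizer.ext _ _ _ _ (Prod.ext (ContinuousLinearMap.ext fun b => ?_)
    (ContinuousLinearMap.ext fun b => m.central b a))
  change m.fst (a * b) = m.fst a * b
  exact cancel fun c => by rw [← m.central, ← mul_assoc, ← mul_assoc, m.central]

theorem coe_mul {A : Type} [NonUnitalCStarAlgebra A] (m : DoubleCentralizer ℂ A) (a : A) :
    DoubleCentralizer.coeHom (𝕜 := ℂ) a * m = DoubleCentralizer.coeHom (𝕜 := ℂ) (m.snd a) := by
  refine DoubleCentralizer.ext _ _ _ _ (Prod.ext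
    (ContinuousLinearMap.ext fun b => (m.central a b).symm) (ContinuousLinearMap.ext fun b => ?_))
  change m.snd (b * a) = b * m.snd a
  exact cancel' fun c => by rw [m.central, mul_assoc, mul_assoc, m.central]

theorem no_lift (φ : Matrix (Fin 2) (Fin 2) ℂ → DoubleCentralizer ℂ AT)
    (h1 : ∃ a : AT, φ 1 - 1 = DoubleCentralizer.coe ℂ a)
    (h2 : ∀ x y, ∃ a : AT, φ (x + y) - (φ x + φ y) = DoubleCentralizer.coe ℂ a)
    (h4 : ∀ x y, ∃ a : AT, φ (x * y) - φ x * φ y = DoubleCentralizer.coe ℂ a)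
    (h5 : ∀ x, ∃ a : AT, φ (star x) - star (φ x) = DoubleCentralizer.coe ℂ a) : False := by
  let E : Matrix (Fin 2) (Fin 2) ℂ := !![0, 1; 0, 0]
  have e0 : star E = !![0, 0; 1, 0] := by
    ext i j
    fin_cases i <;> fin_cases j <;> simp [E]
  have e1 : star E * E + E * star E = 1 := by
    rw [e0]
    ext i j
    fin_cases i <;> fin_cases j <;> simp [E, Matrix.mul_apply, Fin.sum_univ_two]
  have e2 : E * E = 0 := by
    ext i j
    fin_cases i <;> fin_cases j <;> simp [E, Matrix.mul_apply, Fin.sum_univ_two]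
  obtain ⟨a1, b1⟩ := h1
  obtain ⟨a2, b2⟩ := h2 (star E * E) (E * star E)
  obtain ⟨a3, b3⟩ := h2 0 0
  obtain ⟨a4, b4⟩ := h4 (star E) E
  obtain ⟨a5, b5⟩ := h4 E (star E)
  obtain ⟨a6, b6⟩ := h4 E E
  obtain ⟨a7, b7⟩ := h5 E
  rw [e1] at b2
  rw [e2] at b6
  rw [add_zero] at b3
  change _ = DoubleCentralizer.coeHom (𝕜 := ℂ) _ at b1 b2 b3 b4 b5 b6 b7
  refine no_half (φ E) (a1 - a2 - a4 - a5 - (φ E).snd a7 - (φ E).fst a7) (-a3 - a6) ?_ ?_
  · change _ = DoubleCentralizer.coeHom (𝕜 := ℂ) _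
    simp only [map_sub, ← mul_coe, ← coe_mul, ← b1, ← b2, ← b4, ← b5, ← b7]
    noncomm_ring
  · change _ = DoubleCentralizer.coeHom (𝕜 := ℂ) _
    simp only [map_sub, map_neg, ← b3, ← b6]
    noncomm_ring

end Pool.Agent.H.MP_4d6ef8_an
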